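import Pool.Agent.H101.HB.Bas
import Pool.Graph.R_pool_sql_team_seeded_63374d34.N799.GL.Gam

/-!
# Project HB-uniform (MP_0575cc_nt): the second inner product (helper972)
-/

set_option autoImplicit false

open Complex MeasureTheory Filter Topology Set

namespace Pool.Agent.H972.HB

open Pool.Agent.Y763.HB Pool.Agent.H101.HB

/-! ## The integral of `exp (-t²/T²) / (1 + |t|)` -/

theorem gauss_int {T : ℝ} (hT : 0 < T) :
    Integrable (fun t : ℝ => Real.exp (-(t ^ 2 / T ^ 2))) ∧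
      ∫ t : ℝ, Real.exp (-(t ^ 2 / T ^ 2)) = √Real.pi * T := by
  have e : ∀ t : ℝ, Real.exp (-(t ^ 2 / T ^ 2)) = Real.exp (-(1 / T ^ 2) * t ^ 2) := by
    intro t
    congr 1
    ring
  have hb : 0 < 1 / T ^ 2 := by positivity
  simp only [e]
  refine ⟨integrable_exp_neg_mul_sq hb, ?_⟩
  rw [integral_gaussian, div_div_eq_mul_div, div_one, Real.sqrt_mul Real.pi_pos.le,
    Real.sqrt_sq hT.le]

theorem cap_int {T : ℝ} (hT : 0 < T) :
    IntegrableOn (fun t : ℝ => 1 / (1 + |t|)) (Icc (-T) T) ∧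
      ∫ t in Icc (-T) T, 1 / (1 + |t|) = 2 * Real.log (1 + T) := by
  have hc : Continuous fun t : ℝ => 1 / (1 + |t|) := by
    refine Continuous.div continuous_const (by fun_prop) fun t => ?_
    have := abs_nonneg t
    positivity
  refine ⟨hc.continuousOn.integrableOn_compact isCompact_Icc, ?_⟩
  rw [integral_Icc_eq_integral_Ioc, ← intervalIntegral.integral_of_le (by linarith)]
  have h0 : ∫ t in (0 : ℝ)..T, 1 / (1 + |t|) = Real.log (1 + T) := by
    have e : ∀ t ∈ uIcc 0 T, 1 / (1 + |t|) = (1 + t)⁻¹ := by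
      intro t ht
      rw [uIcc_of_le hT.le] at ht
      rw [abs_of_nonneg ht.1, one_div]
    rw [intervalIntegral.integral_congr e]
    have h1 := intervalIntegral.integral_comp_add_left (a := 0) (b := T)
      (fun x : ℝ => x⁻¹) 1
    rw [h1, integral_inv_of_pos (by norm_num) (by linarith)]
    norm_num
  have h2 : ∫ t in (-T)..0, 1 / (1 + |t|) = Real.log (1 + T) := by
    have h3 := intervalIntegral.integral_comp_neg (a := 0) (b := T)
      (fun x : ℝ => 1 / (1 + |x|))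
    simp only [abs_neg, neg_zero] at h3
    rw [← h3, h0]
  rw [← intervalIntegral.integral_add_adjacent_intervals (b := 0)
    (hc.intervalIntegrable _ _) (hc.intervalIntegrable _ _), h0, h2]
  ring

/-- `∫ exp (-t²/T²) / (1 + |t|) dt ≤ 6 log T` -/
theorem cap_gauss {T : ℝ} (hT : 3 ≤ T) :
    Integrable (fun t : ℝ => Real.exp (-(t ^ 2 / T ^ 2)) / (1 + |t|)) ∧
      ∫ t : ℝ, Real.exp (-(t ^ 2 / T ^ 2)) / (1 + |t|) ≤ 6 * Real.log T := by
  have hT0 : 0 < T := by linarith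
  obtain ⟨g1, g2⟩ := gauss_int hT0
  obtain ⟨c1, c2⟩ := cap_int hT0
  have hc : Continuous fun t : ℝ => Real.exp (-(t ^ 2 / T ^ 2)) / (1 + |t|) := by
    refine Continuous.div (by fun_prop) (by fun_prop) fun t => ?_
    have := abs_nonneg t
    positivity
  have hI : Integrable (fun t : ℝ => Real.exp (-(t ^ 2 / T ^ 2)) / (1 + |t|)) := by
    refine g1.mono' hc.aestronglyMeasurable (Eventually.of_forall fun t => ?_)
    have h0 := abs_nonneg t
    rw [Real.norm_of_nonneg (by positivity)]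
    exact div_le_self (Real.exp_pos _).le (by linarith)
  refine ⟨hI, ?_⟩
  have hle : ∀ t : ℝ, Real.exp (-(t ^ 2 / T ^ 2)) / (1 + |t|) ≤
      (Icc (-T) T).indicator (fun t : ℝ => 1 / (1 + |t|)) t +
        1 / T * Real.exp (-(t ^ 2 / T ^ 2)) := by
    intro t
    have h0 := abs_nonneg t
    have h1 : 0 ≤ 1 / T * Real.exp (-(t ^ 2 / T ^ 2)) := by positivity
    by_cases ht : t ∈ Icc (-T) T
    · rw [indicator_of_mem ht]
      have h2 : Real.exp (-(t ^ 2 / T ^ 2)) ≤ 1 := by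
        rw [Real.exp_le_one_iff]
        have : 0 ≤ t ^ 2 / T ^ 2 := by positivity
        linarith
      have h3 : Real.exp (-(t ^ 2 / T ^ 2)) / (1 + |t|) ≤ 1 / (1 + |t|) :=
        div_le_div_of_nonneg_right h2 (by linarith)
      linarith
    · rw [indicator_of_notMem ht, zero_add]
      have h2 : T ≤ 1 + |t| := by
        by_contra h
        apply ht
        have h4 : |t| ≤ T := by linarith
        exact abs_le.1 h4
      rw [div_eq_mul_inv, mul_comm, one_div]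
      exact mul_le_mul_of_nonneg_right (inv_anti₀ hT0 h2) (Real.exp_pos _).le
  have h3 := integral_mono hI (((integrable_indicator_iff measurableSet_Icc).2 c1).add
    (g1.const_mul (1 / T))) hle
  simp only [Pi.add_apply] at h3
  rw [integral_add ((integrable_indicator_iff measurableSet_Icc).2 c1) (g1.const_mul (1 / T)),
    integral_indicator measurableSet_Icc, c2, integral_const_mul, g2] at h3
  have h4 : 1 / T * (√Real.pi * T) = √Real.pi := by field_simp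
  rw [h4] at h3
  have hlog : 1 ≤ Real.log T := by
    rw [Real.le_log_iff_exp_le hT0]
    have := Real.exp_one_lt_d9
    linarith
  have h5 : Real.log (1 + T) ≤ 2 * Real.log T := by
    have : Real.log (1 + T) ≤ Real.log (T ^ 2) := Real.log_le_log (by linarith) (by nlinarith)
    rw [Real.log_pow] at this
    push_cast at this
    exact this
  have h6 : √Real.pi ≤ 2 := by
    rw [Real.sqrt_le_left (by norm_num)]
    have := Real.pi_le_four
    linarith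
  linarith

/-! ## The gamma factor -/

theorem gr_norm (z : ℂ) : ‖Gammaℝ z‖ = Real.pi ^ (-z.re / 2) * ‖Gamma (z / 2)‖ := by
  rw [Gammaℝ_def, norm_mul, Complex.norm_cpow_eq_rpow_re_of_pos Real.pi_pos]
  congr 2
  rw [show -z / 2 = -z * ((1 / 2 : ℝ) : ℂ) by push_cast; ring, re_mul_ofReal, neg_re]
  ring

theorem gr_up {z : ℂ} {r : ℝ} (hz : 0 < z.re) (h0 : 0 ≤ r) (h2 : r ≤ 2) :
    ‖Gammaℝ (z + r)‖ ≤ 2 * (1 + ‖z‖) * ‖Gammaℝ z‖ := by
  rw [gr_norm, gr_norm]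
  have hre : (z + (r : ℂ)).re = z.re + r := by simp
  have h1 : Real.pi ^ (-(z + (r : ℂ)).re / 2) ≤ Real.pi ^ (-z.re / 2) := by
    rw [hre]
    exact Real.rpow_le_rpow_of_exponent_le (by linarith [Real.pi_gt_three]) (by linarith)
  have hz2 : 0 < (z / 2).re := by
    rw [show z / 2 = z * ((1 / 2 : ℝ) : ℂ) by push_cast; ring, re_mul_ofReal]
    linarith
  have h3 := Pool.Agent.N799.GL.gamA (z := z / 2) (y := r / 2) hz2 (by linarith) (by linarith)
  have e : z / 2 + ((r / 2 : ℝ) : ℂ) = (z + r) / 2 := by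
    push_cast
    ring
  rw [e] at h3
  have h4 : (1 + ‖z / 2‖) ^ (r / 2) ≤ 1 + ‖z‖ := by
    have h5 : 1 + ‖z / 2‖ ≤ 1 + ‖z‖ := by
      rw [norm_div, Complex.norm_ofNat]
      have := norm_nonneg z
      linarith
    calc (1 + ‖z / 2‖) ^ (r / 2) ≤ (1 + ‖z / 2‖) ^ (1 : ℝ) :=
          Real.rpow_le_rpow_of_exponent_le (by linarith [norm_nonneg (z / 2)]) (by linarith)
      _ = 1 + ‖z / 2‖ := Real.rpow_one _
      _ ≤ _ := h5
  calc Real.pi ^ (-(z + (r : ℂ)).re / 2) * ‖Gamma ((z + r) / 2)‖ ≤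
      Real.pi ^ (-z.re / 2) * (2 * (1 + ‖z / 2‖) ^ (r / 2) * ‖Gamma (z / 2)‖) :=
        mul_le_mul h1 h3 (norm_nonneg _) (by positivity)
    _ ≤ Real.pi ^ (-z.re / 2) * (2 * (1 + ‖z‖) * ‖Gamma (z / 2)‖) := by gcongr
    _ = _ := by ring

theorem gr_refl {z : ℂ} {a : ℝ} (hz : 0 < z.re) (h1 : 2 * z.re ≤ a) (h2 : a ≤ 2 * z.re + 2) :
    ‖Gammaℝ ((a : ℂ) - z)‖ ≤ 2 * (1 + ‖z‖) * ‖Gammaℝ z‖ := by
  have e : (a : ℂ) - z = (starRingEnd ℂ) (z + ((a - 2 * z.re : ℝ) : ℂ)) := by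
    apply Complex.ext
    · simp
      ring
    · simp
  rw [e, Pool.Agent.Y907.AP.GammaR_conj, RCLike.norm_conj]
  exact gr_up hz (by linarith) (by linarith)

theorem gr_refl_eq {z : ℂ} {a : ℝ} (h : a = 2 * z.re) : ‖Gammaℝ ((a : ℂ) - z)‖ = ‖Gammaℝ z‖ := by
  have e : (a : ℂ) - z = (starRingEnd ℂ) z := by
    apply Complex.ext
    · simp
      rw [h]
      ring
    · simp
  rw [e, Pool.Agent.Y907.AP.GammaR_conj, RCLike.norm_conj]

theorem gr_diff {z : ℂ} (hz : 0 < z.re) : DifferentiableAt ℂ Gammaℝ z := by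
  have h := (differentiable_Gammaℝ_inv z).fun_inv (inv_ne_zero (Gammaℝ_ne_zero_of_re_pos hz))
  simpa only [inv_inv] using h

/-! ## The integrand -/

/-- the integrand as an analytic function of `z = 1 + 2δ - s` -/
noncomputable def H (P : Polynomial ℝ) (T : ℝ) (N : ℕ) (δ : ℝ) (z : ℂ) : ℂ :=
  2 * Real.pi * (((2 * δ : ℝ) : ℂ) - z) / z * (Gammaℝ (((3 + 2 * δ : ℝ) : ℂ) - z) / Gammaℝ z) *
    (G z)⁻¹ * A N z * W P T (1 / 2 + δ) z

theorem H_line (P : Polynomial ℝ) (T : ℝ) (N : ℕ) {δ : ℝ} (hδ : 0 < δ) (hδ1 : δ ≤ 1 / 8)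
    (hG : Good (1 / 2 + δ)) (t : ℝ) :
    iz (ln δ (-t)) * (starRingEnd ℂ) (A N (ln δ (-t)) * b δ (ln δ (-t))) *
      ((ph P (-t / T) : ℝ) : ℂ) = H P T N δ (ln δ t) := by
  have hconj : (starRingEnd ℂ) (ln δ (-t)) = ln δ t := by
    rw [ln_neg, Complex.conj_conj]
  have hs : ln δ (-t) = ((1 + 2 * δ : ℝ) : ℂ) - ln δ t := by
    rw [ln_neg, ln_conj]
  set z := ln δ t with hz
  set s := ln δ (-t) with hs'
  have hsre : s.re = 1 / 2 + δ := ln_re δ (-t)
  have hzre : z.re = 1 / 2 + δ := ln_re δ t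
  have hph : ((ph P (-t / T) : ℝ) : ℂ) = W P T (1 / 2 + δ) z := by
    rw [hz, W_ln]
    unfold ph
    rw [neg_div, neg_sq]
  have hxs : xi s ≠ 0 := xi_ne hG (by linarith) hsre.ge (by linarith)
  have hxz : xi z ≠ 0 := xi_ne hG (by linarith) hzre.ge (by linarith)
  have hGs : G s ≠ 0 := by
    obtain ⟨C, k, -, h⟩ := hG
    exact (h s hsre.ge (by linarith)).1
  have hGz : G z ≠ 0 := by
    obtain ⟨C, k, -, h⟩ := hG
    exact (h z hzre.ge (by linarith)).1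
  have hz0 : z ≠ 0 := by
    intro h
    rw [h] at hzre
    simp at hzre
    linarith
  have hs0 : s ≠ 0 := by
    intro h
    rw [h] at hsre
    simp at hsre
    linarith
  have hg : Gammaℝ z ≠ 0 := Gammaℝ_ne_zero_of_re_pos (by linarith)
  have hb : (starRingEnd ℂ) (b δ s) = xi s / xi z := by
    unfold b
    rw [map_div₀, ← xi_conj, ← xi_conj, map_sub, Complex.conj_ofReal, hconj]
    congr 1
    rw [← xi_sub, hs]
    congr 1
    push_cast
    ring
  have hG2 : Gammaℝ (s + 2) = Gammaℝ s * s / 2 / Real.pi := Gammaℝ_add_two hs0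
  have he : s + 2 = ((3 + 2 * δ : ℝ) : ℂ) - z := by
    rw [hs]
    push_cast
    ring
  rw [he] at hG2
  have hpi : (Real.pi : ℂ) ≠ 0 := by exact_mod_cast Real.pi_pos.ne'
  have hsz : s - 1 = ((2 * δ : ℝ) : ℂ) - z := by
    rw [hs]
    push_cast
    ring
  rw [map_mul, A_conj, hconj, hb, hph]
  unfold H
  rw [hG2, ← hsz]
  unfold iz
  rw [xi_eq (s := s) (by linarith), xi_eq (s := z) (by linarith)]
  field_simp

theorem H_diff (P : Polynomial ℝ) (T : ℝ) (N : ℕ) {δ : ℝ} (hδ : 0 < δ) (hδ1 : δ ≤ 1 / 8)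
    (hG : Good (1 / 2 + δ)) {z : ℂ} (h1 : 1 / 2 + δ ≤ z.re) (h2 : z.re ≤ 3 / 2 + δ) :
    DifferentiableAt ℂ (H P T N δ) z := by
  obtain ⟨C, k, -, hG⟩ := hG
  have hz0 : z ≠ 0 := by
    intro h
    rw [h] at h1
    simp at h1
    linarith
  have hre : (((3 + 2 * δ : ℝ) : ℂ) - z).re = 3 + 2 * δ - z.re := by
    rw [sub_re, ofReal_re]
  have e1 : DifferentiableAt ℂ (fun z : ℂ => Gammaℝ (((3 + 2 * δ : ℝ) : ℂ) - z)) z :=
    DifferentiableAt.comp (g := Gammaℝ) z (gr_diff (by rw [hre]; linarith)) (by fun_prop)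
  have e2 : DifferentiableAt ℂ (fun z : ℂ => 2 * Real.pi * (((2 * δ : ℝ) : ℂ) - z) / z) z :=
    DifferentiableAt.div (by fun_prop) differentiableAt_id hz0
  have e3 : DifferentiableAt ℂ (fun z : ℂ => (G z)⁻¹) z :=
    (G_diff z).fun_inv (hG z h1 (by linarith)).1
  unfold H
  exact (((e2.mul (e1.div (gr_diff (by linarith))
    (Gammaℝ_ne_zero_of_re_pos (by linarith)))).mul e3).mul (A_diff N z)).mul
    (W_diff P T (1 / 2 + δ) z)

theorem norm_ge {z : ℂ} {a : ℝ} (h : a ≤ z.re) : a ≤ ‖z‖ :=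
  h.trans ((le_abs_self _).trans (Complex.abs_re_le_norm z))

theorem H_bd (P : Polynomial ℝ) {T : ℝ} (hT : 1 ≤ T) (N : ℕ) {δ : ℝ} (hδ : 0 < δ)
    (hδ1 : δ ≤ 1 / 8) (hG : Good (1 / 2 + δ)) : ∃ (C : ℝ) (k : ℕ), 0 ≤ C ∧ ∀ z : ℂ,
      1 / 2 + δ ≤ z.re → z.re ≤ 3 / 2 + δ →
      ‖H P T N δ z‖ ≤ C * (1 + |z.im|) ^ k * Real.exp (-(z.im ^ 2 / T ^ 2)) := by
  obtain ⟨CG, k, hCG, hG⟩ := hG
  obtain ⟨CA, hCA, hA⟩ := A_bd N
  obtain ⟨CW, hCW, hW⟩ := W_bd P
  refine ⟨2 * Real.pi * 8 * 8 * CG * CA * CW, 2 + k, by positivity, fun z h1 h2 => ?_⟩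
  have hi := abs_nonneg z.im
  have hn := norm_le_re_im (s := z) (by linarith) (by linarith)
  have hz1 : 1 / 2 ≤ ‖z‖ := norm_ge (by linarith)
  have hz0 : 0 < ‖z‖ := by linarith
  have e1 : ‖2 * (Real.pi : ℂ) * (((2 * δ : ℝ) : ℂ) - z) / z‖ ≤
      2 * Real.pi * 8 * (1 + |z.im|) := by
    rw [norm_div, norm_mul, norm_mul, Complex.norm_ofNat, Complex.norm_real,
      Real.norm_of_nonneg Real.pi_pos.le, div_le_iff₀ hz0]
    have h3 : ‖((2 * δ : ℝ) : ℂ) - z‖ ≤ 4 * (1 + |z.im|) := by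
      have h4 := norm_sub_le (((2 * δ : ℝ) : ℂ)) z
      rw [Complex.norm_real, Real.norm_of_nonneg (by linarith)] at h4
      linarith
    calc 2 * Real.pi * ‖((2 * δ : ℝ) : ℂ) - z‖ ≤ 2 * Real.pi * (4 * (1 + |z.im|)) := by gcongr
      _ = 2 * Real.pi * 8 * (1 + |z.im|) * (1 / 2) := by ring
      _ ≤ _ := by gcongr
  have e2 : ‖Gammaℝ (((3 + 2 * δ : ℝ) : ℂ) - z) / Gammaℝ z‖ ≤ 8 * (1 + |z.im|) := by
    have hg : 0 < ‖Gammaℝ z‖ := norm_pos_iff.2 (Gammaℝ_ne_zero_of_re_pos (by linarith))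
    rw [norm_div, div_le_iff₀ hg]
    refine (gr_refl (by linarith) (by linarith) (by linarith)).trans ?_
    refine mul_le_mul_of_nonneg_right ?_ hg.le
    linarith
  have e3 := (hG z h1 (by linarith)).2
  have e4 := hA z (by linarith) (by linarith)
  have e5 := hW T (1 / 2 + δ) hT z (by
    rw [abs_le]
    constructor <;> linarith)
  unfold H
  rw [norm_mul, norm_mul, norm_mul, norm_mul]
  calc _ ≤ (2 * Real.pi * 8 * (1 + |z.im|)) * (8 * (1 + |z.im|)) * (CG * (1 + |z.im|) ^ k) *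
        CA * (CW * Real.exp (-(z.im ^ 2 / T ^ 2))) := by
        refine mul_le_mul (mul_le_mul (mul_le_mul (mul_le_mul e1 e2 (norm_nonneg _) ?_) e3
          (norm_nonneg _) ?_) e4 (norm_nonneg _) ?_) e5 (norm_nonneg _) ?_ <;> positivity
    _ = _ := by ring

/-! ## The bound on the line `Re z = 3/2 + δ` -/

/-- `∑ n^(-3/2)` -/
noncomputable def K0 : ℝ := ∑' n : ℕ, (n : ℝ) ^ (-(3 / 2) : ℝ)

theorem K0_sum : Summable fun n : ℕ => (n : ℝ) ^ (-(3 / 2) : ℝ) :=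
  Real.summable_nat_rpow.2 (by norm_num)

theorem K0_nonneg : 0 ≤ K0 := tsum_nonneg fun n => by positivity

theorem term_le {z : ℂ} (hz : 3 / 2 ≤ z.re) (n : ℕ) :
    ‖(mu n : ℂ) * (n : ℂ) ^ (-z)‖ ≤ (n : ℝ) ^ (-(3 / 2) : ℝ) := by
  rcases Nat.eq_zero_or_pos n with rfl | hn
  · have : mu 0 = 0 := by simp [mu]
    rw [this]
    simp
  · rw [norm_mul, norm_cpow_nat hn, Complex.norm_real, Real.norm_eq_abs]
    calc |mu n| * (n : ℝ) ^ (-z).re ≤ 1 * (n : ℝ) ^ (-(3 / 2) : ℝ) := by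
          refine mul_le_mul (mu_abs n) ?_ (by positivity) zero_le_one
          refine Real.rpow_le_rpow_of_exponent_le (by exact_mod_cast hn) ?_
          rw [neg_re]
          linarith
      _ = _ := one_mul _

theorem A_K0 (N : ℕ) {z : ℂ} (hz : 3 / 2 ≤ z.re) : ‖A N z‖ ≤ K0 := by
  unfold A
  refine (norm_sum_le _ _).trans ((Finset.sum_le_sum fun n _ => term_le hz n).trans ?_)
  exact K0_sum.sum_le_tsum _ fun n _ => by positivity

theorem iz_K0 {z : ℂ} (hz : 3 / 2 ≤ z.re) : ‖iz z‖ ≤ K0 :=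
  (iz_sum (by linarith)).norm_le_of_bounded K0_sum.hasSum fun n => term_le hz n

theorem H_right (P : Polynomial ℝ) : ∃ C : ℝ, 0 < C ∧ ∀ T : ℝ, 1 ≤ T → ∀ (N : ℕ) (δ : ℝ), 0 < δ →
    δ ≤ 1 / 8 → Good (1 / 2 + δ) → ∀ t : ℝ, ‖H P T N δ (((3 / 2 + δ : ℝ) : ℂ) + t * I)‖ ≤
      C * (Real.exp (-(t ^ 2 / T ^ 2)) / (1 + |t|)) := by
  obtain ⟨CW, hCW, hW⟩ := W_bd P
  refine ⟨2 * Real.pi * 3 * (K0 + 1) * (K0 + 1) * CW, by have := K0_nonneg; positivity, ?_⟩
  intro T hT N δ hδ hδ1 hG t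
  set z : ℂ := ((3 / 2 + δ : ℝ) : ℂ) + t * I with hz
  have hre : z.re = 3 / 2 + δ := by simp [hz]
  have him : z.im = t := by simp [hz]
  have ht := abs_nonneg t
  have hK := K0_nonneg
  obtain ⟨C, k, -, hG⟩ := hG
  have hGz := (hG z (by linarith) (by linarith)).1
  have hz0 : 0 < ‖z‖ := by
    have := norm_ge hre.ge
    linarith
  have e1 : ‖2 * (Real.pi : ℂ) * (((2 * δ : ℝ) : ℂ) - z) / z‖ ≤ 2 * Real.pi := by
    rw [norm_div, norm_mul, norm_mul, Complex.norm_ofNat, Complex.norm_real,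
      Real.norm_of_nonneg Real.pi_pos.le, div_le_iff₀ hz0]
    refine mul_le_mul_of_nonneg_left ?_ (by positivity)
    rw [← sq_le_sq₀ (norm_nonneg _) (norm_nonneg _), ← Complex.normSq_eq_norm_sq,
      ← Complex.normSq_eq_norm_sq, Complex.normSq_apply, Complex.normSq_apply]
    simp only [sub_re, sub_im, ofReal_re, ofReal_im, hre, him]
    nlinarith
  have e2 : ‖Gammaℝ (((3 + 2 * δ : ℝ) : ℂ) - z) / Gammaℝ z‖ = 1 := by
    have hg : 0 < ‖Gammaℝ z‖ := norm_pos_iff.2 (Gammaℝ_ne_zero_of_re_pos (by linarith))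
    rw [norm_div, gr_refl_eq (by rw [hre]; ring), div_self hg.ne']
  have hz1 : z - 1 ≠ 0 := by
    intro h
    have h3 := congrArg Complex.re h
    rw [sub_re, one_re, zero_re, hre] at h3
    linarith
  have h4 : (1 + |t|) / 3 ≤ ‖z - 1‖ := by
    have h5 : 1 / 2 ≤ ‖z - 1‖ := norm_ge (by rw [sub_re, one_re, hre]; linarith)
    have h6 : |t| ≤ ‖z - 1‖ := by
      have := Complex.abs_im_le_norm (z - 1)
      rwa [sub_im, one_im, sub_zero, him] at this
    linarith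
  have e3 : ‖(G z)⁻¹‖ ≤ (K0 + 1) * (3 / (1 + |t|)) := by
    have h5 : (G z)⁻¹ = iz z / (z - 1) := by
      unfold iz
      field_simp
    rw [h5, norm_div, div_eq_mul_inv]
    refine mul_le_mul ((iz_K0 (by linarith)).trans (by linarith)) ?_ (by positivity) (by positivity)
    have h6 := inv_anti₀ (by positivity) h4
    rwa [inv_div] at h6
  have e4 : ‖A N z‖ ≤ K0 + 1 := (A_K0 N (by linarith)).trans (by linarith)
  have e5 := hW T (1 / 2 + δ) hT z (by
    rw [hre, abs_le]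
    constructor <;> linarith)
  rw [him] at e5
  unfold H
  rw [norm_mul, norm_mul, norm_mul, norm_mul, e2, mul_one]
  calc _ ≤ (2 * Real.pi) * ((K0 + 1) * (3 / (1 + |t|))) * (K0 + 1) *
        (CW * Real.exp (-(t ^ 2 / T ^ 2))) := by
        refine mul_le_mul (mul_le_mul (mul_le_mul e1 e3 (norm_nonneg _) ?_) e4
          (norm_nonneg _) ?_) e5 (norm_nonneg _) ?_ <;> positivity
    _ = _ := by ring

theorem t_I2 : S_I2 := by
  intro P
  obtain ⟨C, hC, hH⟩ := H_right P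
  refine ⟨C * 6, by positivity, fun T hT N δ hδ hδ1 hG => ?_⟩
  have hT1 : 1 ≤ T := by linarith
  obtain ⟨CB, k, hCB, hB⟩ := H_bd P hT1 N hδ hδ1 hG
  have h1 : ∫ t : ℝ, iz (ln δ t) * (starRingEnd ℂ) (A N (ln δ t) * b δ (ln δ t)) *
      ((ph P (t / T) : ℝ) : ℂ) = ∫ t : ℝ, H P T N δ (((1 / 2 + δ : ℝ) : ℂ) + t * I) := by
    rw [← integral_neg_eq_self]
    exact integral_congr_ae (Eventually.of_forall fun t => H_line P T N hδ hδ1 hG t)
  have h2 := shiftG (f := H P T N δ) (a := 1 / 2 + δ) (b := 3 / 2 + δ) (by linarith)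
    (by linarith) hCB (fun s h3 h4 => H_diff P T N hδ hδ1 hG h3 h4) hB
  obtain ⟨g1, g2⟩ := cap_gauss hT
  rw [h1, h2]
  calc ‖∫ t : ℝ, H P T N δ (((3 / 2 + δ : ℝ) : ℂ) + t * I)‖ ≤
      ∫ t : ℝ, C * (Real.exp (-(t ^ 2 / T ^ 2)) / (1 + |t|)) :=
        norm_integral_le_of_norm_le (g1.const_mul C)
          (Eventually.of_forall fun t => hH T hT1 N δ hδ hδ1 hG t)
    _ = C * ∫ t : ℝ, Real.exp (-(t ^ 2 / T ^ 2)) / (1 + |t|) := integral_const_mul _ _
    _ ≤ C * (6 * Real.log T) := by gcongr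
    _ = _ := by ring

end Pool.Agent.H972.HB
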